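import Pool.Agent.W785.FD.Stms

set_option autoImplicit false

open MeasureTheory Metric Set Filter
open scoped ENNReal NNReal Topology

namespace Pool.Agent.W381.FD.Proper

open Pool.Agent.W785.FD

theorem dbl_iter {X : Type*} [MetricSpace X] [MeasurableSpace X] {μ : Measure X} {D : ℝ}
    (h : Dbl μ D) (n : ℕ) (x : X) (r : ℝ) (hr : 0 < r) :
    μ (ball x (2 ^ n * r)) ≤ ENNReal.ofReal D ^ n * μ (ball x r) := by
  induction n with
  | zero => simp
  | succ n ih =>
    have h1 := h.dbl x (2 ^ n * r) (by positivity)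
    calc μ (ball x (2 ^ (n + 1) * r)) = μ (ball x (2 * (2 ^ n * r))) := by
          rw [pow_succ]; congr 2; ring
      _ ≤ ENNReal.ofReal D * μ (ball x (2 ^ n * r)) := h1
      _ ≤ ENNReal.ofReal D * (ENNReal.ofReal D ^ n * μ (ball x r)) := by gcongr
      _ = ENNReal.ofReal D ^ (n + 1) * μ (ball x r) := by rw [pow_succ]; ring

theorem main {X : Type*} [MetricSpace X] [CompleteSpace X] [MeasurableSpace X] [BorelSpace X]
    (μ : Measure X) (D : ℝ) : S_PROPER μ D := by
  intro h
  refine ProperSpace.of_isCompact_closedBall_of_le 0 fun x R hR => ?_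
  refine TotallyBounded.isCompact_of_isClosed ?_ isClosed_closedBall
  rw [Metric.totallyBounded_iff]
  intro ε hε
  by_contra hcon
  push Not at hcon
  obtain ⟨f, hf1, hf2⟩ := exists_seq_of_forall_finset_exists (fun y => y ∈ closedBall x R)
    (fun a b => ε ≤ dist b a) (by
      intro s _
      have h1 := hcon (s : Set X) s.finite_toSet
      rw [Set.not_subset] at h1
      obtain ⟨y, hy, hy2⟩ := h1
      refine ⟨y, hy, fun z hz => ?_⟩
      by_contra h3
      push Not at h3
      apply hy2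
      rw [mem_iUnion₂]
      exact ⟨z, hz, h3⟩)
  have hdisj : Pairwise (Function.onFun Disjoint fun n => ball (f n) (ε / 2)) := by
    intro m n hmn
    apply ball_disjoint_ball
    rw [add_halves]
    rcases lt_or_gt_of_ne hmn with h1 | h1
    · rw [dist_comm]; exact hf2 m n h1
    · exact hf2 n m h1
  have hsub : (⋃ n, ball (f n) (ε / 2)) ⊆ ball x (R + ε) := by
    rw [iUnion_subset_iff]
    intro n
    apply ball_subset_ball'
    have := mem_closedBall.1 (hf1 n)
    linarith
  obtain ⟨N, hN⟩ := pow_unbounded_of_one_lt ((2 * R + ε) / (ε / 2)) (by norm_num : (1 : ℝ) < 2)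
  rw [div_lt_iff₀ (by positivity)] at hN
  have hbig : ∀ n, μ (ball x (R + ε)) ≤ ENNReal.ofReal D ^ N * μ (ball (f n) (ε / 2)) := by
    intro n
    refine (measure_mono ?_).trans (dbl_iter h N (f n) (ε / 2) (by positivity))
    apply ball_subset_ball'
    have := mem_closedBall.1 (hf1 n)
    rw [dist_comm] at this
    linarith
  have hDpos : (0 : ℝ) < D := by linarith [h.one_le]
  have hD0 : ENNReal.ofReal D ^ N ≠ 0 := pow_ne_zero _ (by simpa using hDpos)
  have hDt : ENNReal.ofReal D ^ N ≠ ∞ := ENNReal.pow_ne_top ENNReal.ofReal_ne_top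
  have hc : ∀ n, μ (ball x (R + ε)) / ENNReal.ofReal D ^ N ≤ μ (ball (f n) (ε / 2)) := by
    intro n
    rw [ENNReal.div_le_iff hD0 hDt, mul_comm]
    exact hbig n
  have hc0 : μ (ball x (R + ε)) / ENNReal.ofReal D ^ N ≠ 0 :=
    (ENNReal.div_pos (h.pos x _ (by linarith)).ne' hDt).ne'
  have h1 : ∑' n, μ (ball (f n) (ε / 2)) ≤ μ (ball x (R + ε)) := by
    rw [← measure_iUnion hdisj (fun n => measurableSet_ball)]
    exact measure_mono hsub
  have h2 : ∑' _ : ℕ, μ (ball x (R + ε)) / ENNReal.ofReal D ^ N ≤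
      ∑' n, μ (ball (f n) (ε / 2)) := ENNReal.tsum_le_tsum hc
  rw [ENNReal.tsum_const_eq_top_of_ne_zero hc0] at h2
  exact absurd (h2.trans h1) (not_le.2 (h.fin x _))

end Pool.Agent.W381.FD.Proper
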